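import Pool.Agent.Helper60.SB.Defs4

/-!
The kernel bound via common dyadic cells.
-/

open Finset MeasureTheory
open scoped ENNReal Real

namespace Pool.Agent.Helper75.SB

open Pool.Agent.Helper60.SB

lemma l3b_prob1 : IsProbabilityMeasure tor1 := by
  constructor
  unfold tor1
  rw [Measure.smul_apply, Measure.restrict_apply_univ, Real.volume_Ico, sub_zero, smul_eq_mul]
  exact ENNReal.inv_mul_cancel (by simp [Real.pi_pos]) ENNReal.ofReal_ne_top

lemma l3b_prob (d : ℕ) : IsProbabilityMeasure (tor d) := by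
  have := l3b_prob1
  unfold tor
  infer_instance

lemma l3b_cell_lt (a : ℕ) (x : ℝ) : cell a x < 2 ^ a := by
  unfold cell
  have h0 : (0 : ℝ) ≤ Int.fract (x / (2 * π)) := Int.fract_nonneg _
  have h1 : Int.fract (x / (2 * π)) < 1 := Int.fract_lt_one _
  have h2 : (0 : ℝ) < 2 ^ a := by positivity
  rw [Nat.floor_lt (by positivity)]
  push_cast
  nlinarith

lemma l3b_ub_zero (u : ℝ → ℝ) (hsupp : ∀ t, (t ≤ 1 / 10 ∨ 9 / 10 ≤ t) → u t = 0) (s c : ℕ)
    (x : ℝ) (h : c ≠ cell s x) : ub u s c x = 0 := by
  unfold ub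
  apply hsupp
  by_contra hcon
  push Not at hcon
  apply h
  unfold cell
  symm
  rw [Nat.floor_eq_iff (by
    have h0 : (0 : ℝ) ≤ Int.fract (x / (2 * π)) := Int.fract_nonneg _
    positivity)]
  constructor <;> linarith [hcon.1, hcon.2]

lemma l3b_kb1 (u : ℝ → ℝ) (hu1 : ∀ t, |u t| ≤ 1)
    (hsupp : ∀ t, (t ≤ 1 / 10 ∨ 9 / 10 ≤ t) → u t = 0) (s : ℕ) (x y : ℝ) :
    |kb1 u s x y| ≤ 1 ∧ (cell s x ≠ cell s y → kb1 u s x y = 0) := by
  have h1 : kb1 u s x y = ub u s (cell s x) x * ub u s (cell s x) y := by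
    unfold kb1
    refine Finset.sum_eq_single (cell s x) ?_ ?_
    · intro b _ hb
      rw [l3b_ub_zero u hsupp s b x hb, zero_mul]
    · intro hb
      exact absurd (Finset.mem_range.2 (l3b_cell_lt s x)) hb
  constructor
  · rw [h1, abs_mul]
    have h2 : |ub u s (cell s x) x| ≤ 1 := hu1 _
    have h3 : |ub u s (cell s x) y| ≤ 1 := hu1 _
    exact mul_le_one₀ h2 (abs_nonneg _) h3
  · intro h
    rw [h1, l3b_ub_zero u hsupp s (cell s x) y h, mul_zero]

theorem abs_kb_le {d : ℕ} (u : ℝ → ℝ) (hu1 : ∀ t, |u t| ≤ 1)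
    (hsupp : ∀ t, (t ≤ 1 / 10 ∨ 9 / 10 ≤ t) → u t = 0) (Sh : Finset (Fin d → ℕ)) (M : ℕ)
    (hM : ∀ s ∈ Sh, ∀ j, s j ≤ M) (x y : Fin d → ℝ) :
    |kb u Sh x y| ≤ ((Sh.filter fun s => ∀ j, s j ≤ lc M (x j) (y j)).card : ℝ) := by
  unfold kb
  refine (Finset.abs_sum_le_sum_abs _ _).trans ?_
  rw [Finset.card_filter]
  push_cast
  refine Finset.sum_le_sum fun s hs => ?_
  rw [Finset.abs_prod]
  split_ifs with h
  · exact Finset.prod_le_one (fun _ _ => abs_nonneg _) fun j _ =>
      (l3b_kb1 u hu1 hsupp (s j) (x j) (y j)).1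
  · push Not at h
    obtain ⟨j, hj⟩ := h
    have h0 : kb1 u (s j) (x j) (y j) = 0 := by
      apply (l3b_kb1 u hu1 hsupp (s j) (x j) (y j)).2
      intro heq
      have := Nat.le_findGreatest (P := fun a => cell a (x j) = cell a (y j)) (hM s hs j) heq
      unfold lc at hj
      omega
    have h1 : ∏ j, |kb1 u (s j) (x j) (y j)| = 0 :=
      Finset.prod_eq_zero (Finset.mem_univ j) (by rw [h0, abs_zero])
    rw [h1]

lemma l3b_meas (a k : ℕ) : MeasurableSet {y : ℝ | cell a y = k} := by
  have h : Measurable (cell a) := by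
    unfold cell
    exact Nat.measurable_floor.comp
      (measurable_const.mul (measurable_fract.comp (measurable_id.div_const _)))
  exact h (measurableSet_singleton k)

lemma l3b_meas_fun (a k : ℕ) :
    Measurable fun y : ℝ => if cell a y = k then (1 : ℝ) else 0 :=
  Measurable.ite (l3b_meas a k) measurable_const measurable_const

lemma l3b_int1 (a k : ℕ) :
    ∫ y, (if cell a y = k then (1 : ℝ) else 0) ∂tor1 ≤ 1 / 2 ^ a := by
  have hpi : (0 : ℝ) < 2 * π := by positivity
  have h2 : (0 : ℝ) < 2 ^ a := by positivity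
  unfold tor1
  rw [integral_smul_measure, ENNReal.toReal_inv, ENNReal.toReal_ofReal hpi.le, smul_eq_mul]
  set S : Set ℝ := Set.Ico (2 * π * k / 2 ^ a) (2 * π * (k + 1) / 2 ^ a) with hS
  have hSv : volume.real S = 2 * π / 2 ^ a := by
    rw [hS, measureReal_def, Real.volume_Ico]
    have e : 2 * π * (k + 1) / 2 ^ a - 2 * π * k / 2 ^ a = 2 * π / 2 ^ a := by
      field_simp
      ring
    rw [e, ENNReal.toReal_ofReal (by positivity)]
  have hSf : volume S ≠ ⊤ := by
    rw [hS, Real.volume_Ico]
    exact ENNReal.ofReal_ne_top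
  have hint : Integrable (S.indicator fun _ => (1 : ℝ))
      (volume.restrict (Set.Ico 0 (2 * π))) := by
    refine (integrable_indicator_iff measurableSet_Ico).2 ?_
    exact integrableOn_const (by
      refine ne_top_of_le_ne_top hSf ?_
      exact Measure.restrict_le_self S)
  have h3 : ∫ y in Set.Ico 0 (2 * π), (if cell a y = k then (1 : ℝ) else 0) ≤
      ∫ y in Set.Ico 0 (2 * π), S.indicator (fun _ => (1 : ℝ)) y := by
    refine integral_mono_of_nonneg (Filter.Eventually.of_forall fun y => ?_) hint ?_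
    · show (0 : ℝ) ≤ if cell a y = k then (1 : ℝ) else 0
      split_ifs <;> norm_num
    · refine (ae_restrict_iff' measurableSet_Ico).2 (Filter.Eventually.of_forall fun y hy => ?_)
      show (if cell a y = k then (1 : ℝ) else 0) ≤ S.indicator (fun _ => (1 : ℝ)) y
      split_ifs with h
      · have hf : Int.fract (y / (2 * π)) = y / (2 * π) := by
          rw [Int.fract_eq_self]
          exact ⟨div_nonneg hy.1 hpi.le, (div_lt_one hpi).2 hy.2⟩
        unfold cell at h
        rw [hf, Nat.floor_eq_iff (by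
          have := div_nonneg hy.1 hpi.le
          positivity)] at h
        have hmem : y ∈ S := by
          rw [hS]
          constructor
          · rw [div_le_iff₀ h2]
            have h4 := h.1
            have e : 2 ^ a * (y / (2 * π)) = (y * 2 ^ a) / (2 * π) := by ring
            rw [e, le_div_iff₀ hpi] at h4
            linarith
          · rw [lt_div_iff₀ h2]
            have h4 := h.2
            have e : 2 ^ a * (y / (2 * π)) = (y * 2 ^ a) / (2 * π) := by ring
            rw [e, div_lt_iff₀ hpi] at h4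
            linarith
        rw [Set.indicator_of_mem hmem]
      · exact Set.indicator_nonneg (fun _ _ => zero_le_one) y
  have h4 : ∫ y in Set.Ico 0 (2 * π), S.indicator (fun _ => (1 : ℝ)) y ≤ 2 * π / 2 ^ a := by
    rw [integral_indicator measurableSet_Ico, setIntegral_const, smul_eq_mul, mul_one, ← hSv]
    unfold Measure.real
    refine ENNReal.toReal_mono hSf ?_
    exact Measure.restrict_le_self S
  calc (2 * π)⁻¹ * ∫ y in Set.Ico 0 (2 * π), (if cell a y = k then (1 : ℝ) else 0)
      ≤ (2 * π)⁻¹ * (2 * π / 2 ^ a) :=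
        mul_le_mul_of_nonneg_left (h3.trans h4) (by positivity)
    _ = 1 / 2 ^ a := by field_simp

theorem integral_lc_le {d : ℕ} (M : ℕ) (x : Fin d → ℝ) (g : (Fin d → ℕ) → ℝ)
    (hg : ∀ l, 0 ≤ g l) :
    ∫ y, g (fun j => lc M (x j) (y j)) ∂(tor d) ≤
      ∑ l ∈ Fintype.piFinset (fun _ : Fin d => range (M + 1)), g l / 2 ^ (∑ j, l j) := by
  have hp1 := l3b_prob1
  have hp := l3b_prob d
  set F : (Fin d → ℕ) → (Fin d → ℝ) → ℝ := fun l y =>
    ∏ j, (if cell (l j) (y j) = cell (l j) (x j) then (1 : ℝ) else 0) with hF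
  have hF0 : ∀ l y, 0 ≤ F l y := by
    intro l y
    refine Finset.prod_nonneg fun j _ => ?_
    split_ifs <;> norm_num
  have hF1 : ∀ l y, F l y ≤ 1 := by
    intro l y
    refine Finset.prod_le_one (fun j _ => ?_) fun j _ => ?_
    · split_ifs <;> norm_num
    · split_ifs <;> norm_num
  have hFm : ∀ l, Measurable (F l) := by
    intro l
    refine Finset.measurable_prod _ fun j _ => ?_
    exact (l3b_meas_fun (l j) (cell (l j) (x j))).comp (measurable_pi_apply j)
  have hFi : ∀ l, Integrable (F l) (tor d) := by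
    intro l
    refine Integrable.of_bound (hFm l).aestronglyMeasurable 1
      (Filter.Eventually.of_forall fun y => ?_)
    rw [Real.norm_eq_abs, abs_of_nonneg (hF0 l y)]
    exact hF1 l y
  have hFint : ∀ l, ∫ y, F l y ∂(tor d) ≤ 1 / 2 ^ (∑ j, l j) := by
    intro l
    have e : ∫ y, F l y ∂(tor d) =
        ∏ j, ∫ t, (if cell (l j) t = cell (l j) (x j) then (1 : ℝ) else 0) ∂tor1 := by
      unfold tor
      exact integral_fintype_prod_eq_prod
        (fun j t => if cell (l j) t = cell (l j) (x j) then (1 : ℝ) else 0)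
    rw [e]
    calc ∏ j, ∫ t, (if cell (l j) t = cell (l j) (x j) then (1 : ℝ) else 0) ∂tor1
        ≤ ∏ j, (1 : ℝ) / 2 ^ (l j) := by
          refine Finset.prod_le_prod (fun j _ => ?_) fun j _ => l3b_int1 _ _
          refine integral_nonneg fun t => ?_
          show (0 : ℝ) ≤ if cell (l j) t = cell (l j) (x j) then (1 : ℝ) else 0
          split_ifs <;> norm_num
      _ = 1 / 2 ^ (∑ j, l j) := by
          rw [Finset.prod_div_distrib, Finset.prod_pow_eq_pow_sum]
          simp
  have hpt : ∀ y, g (fun j => lc M (x j) (y j)) ≤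
      ∑ l ∈ Fintype.piFinset (fun _ : Fin d => range (M + 1)), g l * F l y := by
    intro y
    have hmem : (fun j => lc M (x j) (y j)) ∈
        Fintype.piFinset (fun _ : Fin d => range (M + 1)) := by
      rw [Fintype.mem_piFinset]
      intro j
      rw [Finset.mem_range]
      have : lc M (x j) (y j) ≤ M := Nat.findGreatest_le M
      omega
    have h1 := Finset.single_le_sum (f := fun l => g l * F l y)
      (s := Fintype.piFinset (fun _ : Fin d => range (M + 1)))
      (fun l _ => mul_nonneg (hg l) (hF0 l y)) hmem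
    refine le_trans (le_of_eq ?_) h1
    have h2 : F (fun j => lc M (x j) (y j)) y = 1 := by
      rw [hF]
      refine Finset.prod_eq_one fun j _ => ?_
      rw [if_pos]
      have h3 : cell (lc M (x j) (y j)) (x j) = cell (lc M (x j) (y j)) (y j) := by
        unfold lc
        refine Nat.findGreatest_spec (P := fun a => cell a (x j) = cell a (y j)) (Nat.zero_le M) ?_
        have h4 := l3b_cell_lt 0 (x j)
        have h5 := l3b_cell_lt 0 (y j)
        omega
      exact h3.symm
    show g (fun j => lc M (x j) (y j)) =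
      g (fun j => lc M (x j) (y j)) * F (fun j => lc M (x j) (y j)) y
    rw [h2, mul_one]
  calc ∫ y, g (fun j => lc M (x j) (y j)) ∂(tor d)
      ≤ ∫ y, ∑ l ∈ Fintype.piFinset (fun _ : Fin d => range (M + 1)), g l * F l y ∂(tor d) := by
        refine integral_mono_of_nonneg (Filter.Eventually.of_forall fun y => hg _) ?_
          (Filter.Eventually.of_forall hpt)
        exact integrable_finset_sum _ fun l _ => (hFi l).const_mul _
    _ = ∑ l ∈ Fintype.piFinset (fun _ : Fin d => range (M + 1)), g l * ∫ y, F l y ∂(tor d) := by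
        rw [integral_finset_sum _ fun l _ => (hFi l).const_mul _]
        refine Finset.sum_congr rfl fun l _ => ?_
        rw [integral_const_mul]
    _ ≤ ∑ l ∈ Fintype.piFinset (fun _ : Fin d => range (M + 1)), g l / 2 ^ (∑ j, l j) := by
        refine Finset.sum_le_sum fun l _ => ?_
        rw [div_eq_mul_one_div]
        exact mul_le_mul_of_nonneg_left (hFint l) (hg l)

end Pool.Agent.Helper75.SB
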