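import Pool.Agent.Helper60.SB.Order
import Pool.Agent.Helper60.SB.Defs5

/-!
Covering of the class `W^r_2` at the level `N`.
-/

open Finset MeasureTheory
open scoped ENNReal Real

namespace Pool.Agent.Helper75.SB

open Pool.Agent.Helper60.SB

/-- from an entropy bound to a covering -/
theorem p10_cov {d : ℕ} (S : Set ((Fin d → ℝ) → ℂ)) (n : ℕ) (ε K : ℝ)
    (h : entropyNumber n S < ENNReal.ofReal ε) (hK : (n : ℝ) * Real.log 2 ≤ K) :
    CovA S ε K := by
  classical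
  have hε : 0 < ε := ENNReal.ofReal_pos.1 (lt_of_le_of_lt zero_le h)
  unfold entropyNumber at h
  rw [sInf_lt_iff] at h
  obtain ⟨ε', ⟨h0, y, hy, hf⟩, hlt⟩ := h
  refine ⟨univ.image y, ?_, ?_, ?_⟩
  · have h1 : ((univ.image y).card : ℝ) ≤ (2 : ℝ) ^ n := by
      have h2 := Finset.card_image_le (s := (univ : Finset (Fin (2 ^ n)))) (f := y)
      simp only [Finset.card_univ, Fintype.card_fin] at h2
      exact_mod_cast h2
    refine h1.trans ?_
    have e : (2 : ℝ) ^ n = Real.exp (n * Real.log 2) := by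
      rw [mul_comm, Real.exp_mul, Real.exp_log (by norm_num), Real.rpow_natCast]
    rw [e]
    exact Real.exp_le_exp.2 hK
  · intro z hz
    obtain ⟨j, -, rfl⟩ := Finset.mem_image.1 hz
    exact hy j
  · intro f hfS
    obtain ⟨j, hj⟩ := hf f hfS
    refine ⟨y j, Finset.mem_image_of_mem _ (Finset.mem_univ _), ?_⟩
    have h1 : ∀ᵐ x ∂(tor d), ‖(f - y j) x‖ₑ ≤ eLpNorm (f - y j) ⊤ (tor d) := by
      rw [eLpNorm_exponent_top]
      exact ae_le_eLpNormEssSup
    filter_upwards [h1] with x hx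
    have h2 : ‖(f - y j) x‖ₑ ≤ ENNReal.ofReal ε := hx.trans (hj.trans hlt.le)
    rw [← ofReal_norm_eq_enorm] at h2
    exact (ENNReal.ofReal_le_ofReal_iff hε.le).1 h2

theorem cov_W_two (e : ℕ) (r : ℝ) (hr : 1 / 2 < r) :
    ∀ δ > 0, ∃ C > 0, ∃ N₀ : ℕ, ∀ N ≥ N₀,
      CovA (Wclass (e + 1) ℂ r 2) (C * Real.sqrt ((N : ℝ) + 1) * (2 : ℝ) ^ (-(r * N)))
        (δ * ((N : ℝ) + 1) ^ e * 2 ^ N) := by
  intro δ hδ
  obtain ⟨C', hC', n₀, hup⟩ := upper_W (e + 1) (by omega) ℂ 2 (by norm_num) r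
    (by simpa using hr) hr
  have hl2 : 0 < Real.log 2 := Real.log_pos (by norm_num)
  have hl2' : Real.log 2 ≤ 1 := by
    have := Real.log_two_lt_d9
    linarith
  set c0 : ℝ := δ / Real.log 2 / 2 with hc0
  have hc0p : 0 < c0 := by positivity
  set C2 : ℝ := |Real.log (δ / Real.log 2)| + e + 1 with hC2
  have hC2p : 0 < C2 := by positivity
  set s : ℝ := (e : ℝ) * r + 1 / 2 with hs
  have hsp : 0 < s := by positivity
  refine ⟨C' * c0 ^ (-r) * C2 ^ s + 1, by positivity, ⌈((n₀ : ℝ) + 2) * Real.log 2 / δ⌉₊, ?_⟩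
  intro N hN
  have hN1 : ((n₀ : ℝ) + 2) * Real.log 2 / δ ≤ N := (Nat.le_ceil _).trans (by exact_mod_cast hN)
  have hNp : (0 : ℝ) < (N : ℝ) + 1 := by positivity
  have h1e : (1 : ℝ) ≤ ((N : ℝ) + 1) ^ e := one_le_pow₀ (by linarith [Nat.cast_nonneg (α := ℝ) N])
  have h2N : (N : ℝ) ≤ 2 ^ N := by exact_mod_cast Nat.lt_two_pow_self.le
  set a : ℝ := δ / Real.log 2 * ((N : ℝ) + 1) ^ e * 2 ^ N with ha
  have hap : 0 < a := by positivity
  have ha1 : (n₀ : ℝ) + 2 ≤ a := by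
    have h3 : (n₀ : ℝ) + 2 ≤ δ / Real.log 2 * N := by
      rw [div_le_iff₀ hδ] at hN1
      rw [div_mul_eq_mul_div, le_div_iff₀ hl2]
      linarith
    refine h3.trans ?_
    rw [ha, mul_assoc]
    refine mul_le_mul_of_nonneg_left ?_ (by positivity)
    nlinarith
  set n : ℕ := ⌊a⌋₊ with hn
  have hna : (n : ℝ) ≤ a := Nat.floor_le hap.le
  have hna2 : a < n + 1 := Nat.lt_floor_add_one a
  have hn0 : (0 : ℝ) ≤ n₀ := Nat.cast_nonneg _
  have hnn₀ : n₀ ≤ n := by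
    have : (n₀ : ℝ) < n := by linarith
    exact_mod_cast this.le
  have hn1 : (1 : ℝ) < n := by linarith
  have hnhalf : c0 * ((N : ℝ) + 1) ^ e * 2 ^ N ≤ n := by
    have : c0 * ((N : ℝ) + 1) ^ e * 2 ^ N = a / 2 := by
      rw [ha, hc0]; ring
    rw [this]
    linarith
  -- the logarithm
  have hlog : Real.log n ≤ C2 * ((N : ℝ) + 1) := by
    have h4 : Real.log n ≤ Real.log a := Real.log_le_log (by linarith) hna
    have h5 : Real.log a = Real.log (δ / Real.log 2) + e * Real.log ((N : ℝ) + 1) +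
        N * Real.log 2 := by
      rw [ha, Real.log_mul (by positivity) (by positivity),
        Real.log_mul (by positivity) (by positivity), Real.log_pow, Real.log_pow]
    have h6 : Real.log (δ / Real.log 2) ≤ |Real.log (δ / Real.log 2)| * ((N : ℝ) + 1) := by
      have := le_abs_self (Real.log (δ / Real.log 2))
      have h7 := abs_nonneg (Real.log (δ / Real.log 2))
      nlinarith [Nat.cast_nonneg (α := ℝ) N]
    have h7 : Real.log ((N : ℝ) + 1) ≤ (N : ℝ) + 1 := by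
      have := Real.log_le_sub_one_of_pos hNp
      linarith
    have h8 : (e : ℝ) * Real.log ((N : ℝ) + 1) ≤ e * ((N : ℝ) + 1) :=
      mul_le_mul_of_nonneg_left h7 (Nat.cast_nonneg _)
    have h9 : (N : ℝ) * Real.log 2 ≤ (N : ℝ) + 1 := by
      nlinarith [Nat.cast_nonneg (α := ℝ) N]
    calc Real.log n ≤ Real.log a := h4
      _ ≤ |Real.log (δ / Real.log 2)| * ((N : ℝ) + 1) + e * ((N : ℝ) + 1) + ((N : ℝ) + 1) := by
          rw [h5]; linarith
      _ = C2 * ((N : ℝ) + 1) := by rw [hC2]; ring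
  have hlog0 : 0 ≤ Real.log n := Real.log_nonneg hn1.le
  have hexp : (((e + 1 : ℕ) : ℝ) - 1) * r + 1 / 2 = s := by
    rw [hs]; push_cast; ring
  have hv : C' * (n : ℝ) ^ (-r) * Real.log n ^ ((((e + 1 : ℕ) : ℝ) - 1) * r + 1 / 2) ≤
      C' * c0 ^ (-r) * C2 ^ s * (Real.sqrt ((N : ℝ) + 1) * (2 : ℝ) ^ (-(r * N))) := by
    rw [hexp]
    have h4 : (n : ℝ) ^ (-r) ≤ (c0 * ((N : ℝ) + 1) ^ e * 2 ^ N) ^ (-r) :=
      Real.rpow_le_rpow_of_nonpos (by positivity) hnhalf (by linarith)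
    have h5 : (c0 * ((N : ℝ) + 1) ^ e * 2 ^ N) ^ (-r) =
        c0 ^ (-r) * ((N : ℝ) + 1) ^ (-(e * r)) * (2 : ℝ) ^ (-(r * N)) := by
      rw [Real.mul_rpow (by positivity) (by positivity), Real.mul_rpow hc0p.le (by positivity),
        ← Real.rpow_natCast ((N : ℝ) + 1) e, ← Real.rpow_mul hNp.le, ← Real.rpow_natCast 2 N,
        ← Real.rpow_mul (by norm_num)]
      congr 2
      · congr 1
        congr 1
        ring
      · congr 1
        ring
    have h6 : Real.log n ^ s ≤ C2 ^ s * ((N : ℝ) + 1) ^ s := by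
      rw [← Real.mul_rpow hC2p.le hNp.le]
      exact Real.rpow_le_rpow hlog0 hlog hsp.le
    have h7 : ((N : ℝ) + 1) ^ (-(e * r)) * ((N : ℝ) + 1) ^ s = Real.sqrt ((N : ℝ) + 1) := by
      rw [← Real.rpow_add hNp, Real.sqrt_eq_rpow, hs]
      congr 1
      ring
    calc C' * (n : ℝ) ^ (-r) * Real.log n ^ s
        ≤ C' * (c0 ^ (-r) * ((N : ℝ) + 1) ^ (-(e * r)) * (2 : ℝ) ^ (-(r * N))) *
          (C2 ^ s * ((N : ℝ) + 1) ^ s) := by
          refine mul_le_mul (mul_le_mul_of_nonneg_left (h4.trans h5.le) hC'.le) h6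
            (Real.rpow_nonneg hlog0 _) (by positivity)
      _ = C' * c0 ^ (-r) * C2 ^ s * ((((N : ℝ) + 1) ^ (-(e * r)) * ((N : ℝ) + 1) ^ s) *
          (2 : ℝ) ^ (-(r * N))) := by ring
      _ = _ := by rw [h7]
  apply p10_cov _ n
  · refine lt_of_le_of_lt (hup n hnn₀) ?_
    have hpos : 0 < Real.sqrt ((N : ℝ) + 1) * (2 : ℝ) ^ (-(r * N)) := by positivity
    rw [ENNReal.ofReal_lt_ofReal_iff (by positivity)]
    refine lt_of_le_of_lt hv ?_
    have : (C' * c0 ^ (-r) * C2 ^ s + 1) * Real.sqrt ((N : ℝ) + 1) * (2 : ℝ) ^ (-(r * N)) =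
        C' * c0 ^ (-r) * C2 ^ s * (Real.sqrt ((N : ℝ) + 1) * (2 : ℝ) ^ (-(r * N))) +
        Real.sqrt ((N : ℝ) + 1) * (2 : ℝ) ^ (-(r * N)) := by ring
    rw [this]
    linarith
  · have h4 : (n : ℝ) * Real.log 2 ≤ a * Real.log 2 := mul_le_mul_of_nonneg_right hna hl2.le
    refine h4.trans (le_of_eq ?_)
    rw [ha]
    field_simp

end Pool.Agent.Helper75.SB
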